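import Pool.Agent.H854R3.CR.Stmts

/-! Task Div of the project H854-CR: a nonunital ring without proper nonzero left ideals and with
nonzero multiplication is a division ring. -/

set_option autoImplicit false

namespace Pool.Agent.H780R3.CR

open Pool.Agent.H854R3.CR

theorem taskDiv : TaskDiv := by
  intro R _ hL hxy
  obtain ⟨x1, y1, h1⟩ := hxy
  -- annihilator on the right
  have hZ : ∀ x : R, (∀ r : R, r * x = 0) → x = 0 := by
    let Z : AddSubgroup R :=
      { carrier := {x | ∀ r : R, r * x = 0}
        zero_mem' := fun r => mul_zero r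
        add_mem' := fun {a b} ha hb r => by rw [mul_add, ha r, hb r, add_zero]
        neg_mem' := fun {a} ha r => by rw [mul_neg, ha r, neg_zero] }
    have hZl : LeftId Z := fun r x hx r' => by rw [hx r, mul_zero]
    rcases hL Z hZl with h | h
    · intro x hx
      have : x ∈ Z := hx
      rw [h] at this
      exact AddSubgroup.mem_bot.mp this
    · exfalso
      have : y1 ∈ Z := by rw [h]; exact AddSubgroup.mem_top _
      exact h1 (this x1)
  -- principal left ideals
  have hP : ∀ x : R, x ≠ 0 → ∀ z : R, ∃ r : R, r * x = z := by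
    intro x hx z
    let P : AddSubgroup R :=
      { carrier := {y | ∃ r : R, r * x = y}
        zero_mem' := ⟨0, zero_mul x⟩
        add_mem' := by
          rintro a b ⟨r, rfl⟩ ⟨s, rfl⟩
          exact ⟨r + s, add_mul r s x⟩
        neg_mem' := by
          rintro a ⟨r, rfl⟩
          exact ⟨-r, neg_mul r x⟩ }
    have hPl : LeftId P := by
      rintro r y ⟨s, rfl⟩
      exact ⟨r * s, mul_assoc r s x⟩
    rcases hL P hPl with h | h
    · exfalso
      apply hx
      apply hZ
      intro r
      have : r * x ∈ P := ⟨r, rfl⟩
      rw [h] at this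
      exact AddSubgroup.mem_bot.mp this
    · have : z ∈ P := by rw [h]; exact AddSubgroup.mem_top _
      exact this
  -- no zero divisors
  have hA : ∀ x : R, x ≠ 0 → ∀ y : R, y * x = 0 → y = 0 := by
    intro x hx y hy
    let A : AddSubgroup R :=
      { carrier := {y | y * x = 0}
        zero_mem' := zero_mul x
        add_mem' := fun {a b} (ha : a * x = 0) (hb : b * x = 0) => by
          show (a + b) * x = 0
          rw [add_mul, ha, hb, add_zero]
        neg_mem' := fun {a} (ha : a * x = 0) => by
          show -a * x = 0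
          rw [neg_mul, ha, neg_zero] }
    have hAl : LeftId A := fun r y (hy : y * x = 0) => by
      show r * y * x = 0
      rw [mul_assoc, hy, mul_zero]
    rcases hL A hAl with h | h
    · have : y ∈ A := hy
      rw [h] at this
      exact AddSubgroup.mem_bot.mp this
    · exfalso
      apply hx
      apply hZ
      intro r
      have : r ∈ A := by rw [h]; exact AddSubgroup.mem_top _
      exact this
  have hx1 : x1 ≠ 0 := by
    rintro rfl
    exact h1 (zero_mul y1)
  obtain ⟨e, he⟩ := hP x1 hx1 x1
  have he0 : e ≠ 0 := by
    rintro rfl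
    rw [zero_mul] at he
    exact hx1 he.symm
  have hee : e * e = e := by
    have : (e * e - e) * x1 = 0 := by rw [sub_mul, mul_assoc, he, he, sub_self]
    exact sub_eq_zero.mp (hA x1 hx1 _ this)
  have hre : ∀ x, x * e = x := by
    intro x
    have : (x * e - x) * e = 0 := by rw [sub_mul, mul_assoc, hee, sub_self]
    exact sub_eq_zero.mp (hA e he0 _ this)
  have hle : ∀ x, e * x = x := by
    intro x
    by_contra hne
    have h2 : e * x - x ≠ 0 := sub_ne_zero.mpr hne
    have h3 : e * (e * x - x) = 0 := by rw [mul_sub, ← mul_assoc, hee, sub_self]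
    exact he0 (hA _ h2 e h3)
  refine ⟨e, he0, fun x => ⟨hle x, hre x⟩, fun x hx => ?_⟩
  obtain ⟨y, hy⟩ := hP x hx e
  have hy0 : y ≠ 0 := by
    rintro rfl
    rw [zero_mul] at hy
    exact he0 hy.symm
  obtain ⟨z, hz⟩ := hP y hy0 e
  have hzx : z = x := by
    calc z = z * e := (hre z).symm
      _ = z * (y * x) := by rw [hy]
      _ = z * y * x := (mul_assoc z y x).symm
      _ = e * x := by rw [hz]
      _ = x := hle x
  refine ⟨y, ?_, hy⟩
  rw [← hzx, hz]

end Pool.Agent.H780R3.CR
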